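import Pool.Agent.N724.TX.Asm
import Pool.Agent.N724.TX.T_BIN
import Pool.Agent.N724.TX.T_STEP
import Pool.Agent.N724.TX.T_REC
import Pool.Agent.N724.TX.T_EXP
import Pool.Agent.N724.TX.T_TAIL
import Pool.Agent.N724.TX.T_CNTW
import Pool.Agent.N724.TX.T_VALR
import Pool.Agent.N724.TX.T_FIB
import Pool.Agent.N724.TX.T_INJ
import Pool.Agent.N724.TW.T_INV

set_option autoImplicit false

/-!
# Splay trees are O(1)-competitive for almost all relabellings of every request sequence
-/

namespace Pool.Agent.Results.MP_c42954_lc.AlmostAllRelabellings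

open Pool.Agent.H581R2.Splay Pool.Agent.TH49.Spl Pool.Agent.N724.TW Pool.Agent.N724.TX

/-- Let `X` be a sequence of requests of the keys `0, ..., n - 1`, `rel σ X` the sequence in which the
keys are renamed by the permutation `σ`.
(1) For all `0 < δ ≤ 1`, for all but at most `δ n!` of the permutations `σ` the cost of splaying
`rel ρ X` from `T` is, for all permutations `ρ` and all trees `T` with these keys simultaneously, at
most `555 + 72 log₂ (1/δ)` times the optimal cost of `rel σ X`, plus `8 n log₂ n`; if every key is
requested in `X`, it is at most `1295 + 168 log₂ (1/δ)` times the optimal cost of `rel σ X`, with no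
additive term.
(2) If every key is requested, the average over all the permutations `σ` of the ratio of the cost of
splaying (of any relabelling `rel (π σ) X` from any tree `τ σ`) and the optimal cost of `rel σ X` is
at most `1631`. -/
theorem result :
    (∀ (n : ℕ) (X : List (Fin n)) (δ : ℝ), 0 < δ → δ ≤ 1 →
      ∃ B : Finset (Equiv.Perm (Fin n)), (B.card : ℝ) ≤ δ * n.factorial ∧
        ∀ σ : Equiv.Perm (Fin n), σ ∉ B → ∀ (ρ : Equiv.Perm (Fin n)) (T : Tr),
          keys T = List.range n →
            (costSplay T (rel ρ X) : ℝ) ≤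
              (555 + 72 * Real.logb 2 (1 / δ)) * optAny (List.range n) (rel σ X) +
                8 * (n * Real.logb 2 n) ∧
            ((∀ x : Fin n, x ∈ X) → (costSplay T (rel ρ X) : ℝ) ≤
              (1295 + 168 * Real.logb 2 (1 / δ)) * optAny (List.range n) (rel σ X))) ∧
    (∀ (n : ℕ) (X : List (Fin n)), (∀ x : Fin n, x ∈ X) →
      ∀ (τ : Equiv.Perm (Fin n) → Tr), (∀ σ, keys (τ σ) = List.range n) →
        ∀ π : Equiv.Perm (Fin n) → Equiv.Perm (Fin n),
          ∑ σ : Equiv.Perm (Fin n), (costSplay (τ σ) (rel (π σ) X) : ℝ) /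
            optAny (List.range n) (rel σ X) ≤ 1631 * n.factorial) := by
  have hT := holds_TAIL (holds_EXP holds_REC (holds_STEP holds_BIN))
  exact ⟨fun n X δ h0 h1 => main hT holds_CNTW holds_VALR holds_FIB holds_INJ holds_INV X h0 h1,
    fun n X hX τ hτ π =>
      main_avg hT holds_CNTW holds_VALR holds_FIB holds_INJ holds_INV X hX τ hτ π⟩

end Pool.Agent.Results.MP_c42954_lc.AlmostAllRelabellings
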