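import Pool.Agent.N620.SL.Fam

set_option autoImplicit false

/-!
# Lower bounds for the competitive ratio of splaying

`Tr`, `keys`, `IsBST`, `dep`, `splay`, `costSplay` are those of `Pool.Agent.H581R2.SplayDef`; `opt T X`
(`Pool.Agent.Y395.SP.Stm`, with `Exec` of `Pool.Agent.TH49.Spl.Defs`) is the least cost of an execution
for the requests `X` with initial tree `T` (a request costs one plus the depth of the key, a rotation
anywhere costs one). `stc S X` (`Pool.Agent.N620.SL.Static`) is the sum of `1 + dep x S` over the requests
`x` in `X`, the cost of the requests in the static tree `S`.

(1) If for all search trees `T` and all sequences `X` of keys of `T`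
`costSplay T X ≤ a OPT(X, T) + b |X| + f(n)`, with real numbers `a`, `b` and any function `f` of the number
`n` of keys, then `a ≥ 2` and `4 a + b ≥ 13`. In particular the constant in Q1 is at least `13 / 4`,
even if an additive term depending on `n` is allowed; and no `a < 2` is possible, even if moreover an
additive term `O(|X|)` is allowed.

(2) The same holds if `OPT(X, T)` is replaced by the cost of every static search tree with the keys of
`T`.

Proof. Take a full binary tree `B`, its leaves are the requested keys, its internal nodes are other
keys, each with a pointer to one side. The request follows the pointers from the root to a leaf and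
turns them over. There is a search tree `T(B)`, whose root is the last request, in which the next
request has depth exactly `2 d`, where `d` is its depth in `B`, and all steps of its splaying are
zig-zig steps; the result is the tree `T(B)` for the new pointers. So the average cost is exactly
`2 H + 1`, where `H = ∑ d 2^(-d)` is a sum over the leaves. A static tree has the requested keys at
the top. In complete trees `B` of height `k` the costs are `2 k + 1` and at most `k + 1`; for the trees
`B_k = ((B_{k-2}, leaf), B_{k-1})` they tend to `13` and `4`.
-/

namespace Pool.Agent.Results.MP_c42954_lc.CompetitiveRatio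

open Pool.Agent.H581R2.Splay
open Pool.Agent.Y395.SP (opt)
open Pool.Agent.N620.SL (stc)

theorem result (a b : ℝ) (f : ℕ → ℝ) :
    -- (1) competitiveness against all executions
    ((∀ T : Tr, IsBST T → ∀ X : List ℕ, (∀ x ∈ X, x ∈ keys T) →
      (costSplay T X : ℝ) ≤ a * (opt T X : ℝ) + b * (X.length : ℝ) + f (keys T).length) →
      2 ≤ a ∧ 13 ≤ 4 * a + b) ∧
    -- (2) competitiveness against static trees
    ((∀ T S : Tr, IsBST T → keys S = keys T → ∀ X : List ℕ, (∀ x ∈ X, x ∈ keys T) →
      (costSplay T X : ℝ) ≤ a * (stc S X : ℝ) + b * (X.length : ℝ) + f (keys T).length) →
      2 ≤ a ∧ 13 ≤ 4 * a + b) :=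
  ⟨fun h => Pool.Agent.N620.SL.main1 h, fun h => Pool.Agent.N620.SL.main2 h⟩

end Pool.Agent.Results.MP_c42954_lc.CompetitiveRatio
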