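import Pool.Agent.N724.TW.Asm
import Pool.Agent.N724.TW.T_VAL
import Pool.Agent.N724.TW.T_CNT
import Pool.Agent.N724.TW.T_FD
import Pool.Agent.N724.TW.T_PROB
import Pool.Agent.N724.TW.T_LOG
import Pool.Agent.N724.TW.T_INV
import Pool.Agent.N724.TW.T_MOB

set_option autoImplicit false

/-!
# Splay trees on sequences relabelled by a three-wise uniform family
-/

namespace Pool.Agent.Results.MP_c42954_lc.ThreeTransitiveRelabellings

open Pool.Agent.H581R2.Splay Pool.Agent.TH49.Spl Pool.Agent.N724.TW

open Classical in
/-- Let `S` be a three-wise uniform family of permutations of the keys `0, ..., n - 1` (for all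
distinct `a`, `b`, `c` and distinct `a'`, `b'`, `c'` the number of the `σ ∈ S` which map `a`, `b`,
`c` to `a'`, `b'`, `c'` is `|S| / (n (n - 1) (n - 2))`), let `T` be a tree with these keys and `X` a
request sequence.
(1) The cost of splaying any relabelling `ρ X` from `T` is at most `788` times the average over the
`σ ∈ S` of the optimal costs of the relabelled sequences `σ X`, plus `8 n log₂ n`.
(2) For at least `|S| / 128` of the `σ ∈ S` the cost of splaying `ρ X` from `T` is, for all
permutations `ρ` simultaneously, at most `1556` times the optimal cost of `σ X`, plus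
`8 n log₂ n`.
(3) For every prime power `q` there is such a family with `(q + 1) q (q - 1)` members on `n = q + 1`
keys (the Moebius maps of the projective line). -/
theorem result :
    (∀ (n : ℕ) (S : Finset (Equiv.Perm (Fin n))), Uni3 S → S.Nonempty →
      ∀ T : Tr, keys T = List.range n → ∀ X : List (Fin n),
        (∀ ρ : Equiv.Perm (Fin n), (costSplay T (rel ρ X) : ℝ) ≤
          788 * ((∑ σ ∈ S, (optAny (List.range n) (rel σ X) : ℝ)) / S.card) +
            8 * (n * Real.logb 2 n)) ∧
        S.card ≤ 128 * (S.filter fun σ => ∀ ρ : Equiv.Perm (Fin n),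
          (costSplay T (rel ρ X) : ℝ) ≤
            1556 * optAny (List.range n) (rel σ X) + 8 * (n * Real.logb 2 n)).card) ∧
    (∀ p k : ℕ, p.Prime → k ≠ 0 →
      ∃ S : Finset (Equiv.Perm (Fin (p ^ k + 1))), Uni3 S ∧
        S.card = (p ^ k + 1) * p ^ k * (p ^ k - 1)) := by
  refine ⟨fun n S hS hne T hT X => ⟨fun ρ => ?_, ?_⟩, fun p k hp hk => ?_⟩
  · exact part1 holds_VAL holds_CNT holds_FD holds_PROB holds_LOG holds_INV S hS hne hT X ρ
  · convert part2 holds_VAL holds_CNT holds_FD holds_PROB holds_LOG holds_INV S hS hT X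
  · haveI : Fact p.Prime := ⟨hp⟩
    exact uni_mob holds_MOB p k hk

end Pool.Agent.Results.MP_c42954_lc.ThreeTransitiveRelabellings
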